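import Pool.Agent.H63.PG1

set_option autoImplicit false

namespace Pool.Agent.Results.MP_67c3d0_lc.NormalForm

open Pool.Agent.H63.PG

/-- Every propagating programmed grammar has an equivalent propagating programmed grammar in
one-ND rule normal form. -/
theorem result (T N Ψ : Type) [Fintype T] [Fintype N] [Fintype Ψ] (G : PG T N Ψ)
    (h : G.Propagating) :
    ∃ (N' Ψ' : Type) (_ : Fintype N') (_ : Fintype Ψ') (G' : PG T N' Ψ'),
      G'.Propagating ∧ G'.OneND ∧ G'.lang = G.lang :=
  ⟨_, _, inferInstance, inferInstance, nf G, nf_prop G h, nf_one G, nf_lang G h⟩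

end Pool.Agent.Results.MP_67c3d0_lc.NormalForm
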